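import Mathlib
import Pool.Agent.H129Z.ZabMain

set_option autoImplicit false

namespace Pool.Agent.Results.MP_5347d0_lc.RealDefinable

open Pool.Agent.H129Z.AbInt

theorem result : @Set.Definable₁ Zab ∅ FirstOrder.Language.ring
    (FirstOrder.Ring.compatibleRingOfRing Zab).toStructure {x : Zab | (x : ℂ).im = 0} :=
  main

end Pool.Agent.Results.MP_5347d0_lc.RealDefinable
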